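import Pool.Agent.Results.MP_8707bd_ag.EquivalenceRandomMultiplicities
import Pool.Agent.W2helper30.FP.Law
import Pool.Agent.W2helper30.FP.Prog
import Pool.Agent.W2helper30.AN.Ex

/-!
# The equivalence of Q1 along very sparse families of multiplicities, and in progressions of multiplicities

The multiplicities are the members `c₀ + κ ⌊U f(x₀ + 1 / i)⌋`, `M < i ≤ 2 M`, of the sparse families of an analytic function
`f`; `U` may be as large as `exp ((log M) ^ (3 / 2 - ε₀))`.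

Method: Vinogradov's mean value method for the exponential sums of these members at irrational frequencies
(`Pool.Agent.W2helper30.AN`); simultaneous approximation for the common difference of the progressions; the criterion for
random multiplicities is from the starting file `EquivalenceRandomMultiplicities`.
-/

set_option autoImplicit false

namespace Pool.Agent.Results.MP_8707bd_ag.AnalyticSparseMultiplicities

open MvPolynomial Pool.Agent.TH387.EX
open Pool.Agent.N794.DG (Always meas law meas_mono)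
open Pool.Agent.W2helper30.AN (Ord Rg vl)

/-- `f` is real analytic at `x₀`, and `K ≥ 1` is the order of the zero of `f - f x₀` at `x₀` -/
def OrderAt (f : ℝ → ℝ) (x₀ : ℝ) (K : ℕ) : Prop :=
  AnalyticAt ℝ f x₀ ∧ 1 ≤ K ∧ (∀ j : ℕ, 1 ≤ j → j < K → iteratedDeriv j f x₀ = 0) ∧
    iteratedDeriv K f x₀ ≠ 0

/-- the range of the parameters: `M ^ (K + δ₀) ≤ U ≤ exp ((log M) ^ (3 / 2 - ε₀))` -/
def InRange (K : ℕ) (δ₀ ε₀ : ℝ) (M : ℕ) (U : ℝ) : Prop :=
  (M : ℝ) ^ ((K : ℝ) + δ₀) ≤ U ∧ U ≤ Real.exp ((Real.log M) ^ (3 / 2 - ε₀))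

/-- the members of the family -/
noncomputable def member (f : ℝ → ℝ) (x₀ U : ℝ) (c₀ κ : ℤ) (i : ℕ) : ℤ :=
  c₀ + κ * ⌊U * f (x₀ + 1 / i)⌋

/-- For a general set `Y` of `r` points (one nonempty open set) and every degree `d`: the scheme `m Y`
is `AH₂(d)`, the equivalence of Q1 holds, and no exceptional form divides all elements of
`[I_Y ^ (m)]_d` if this space is not zero. -/
def Settled (r m : ℕ) : Prop :=
  ∃ Φ : MvPolynomial (Fin r × Fin 2) ℂ, Φ ≠ 0 ∧ ∀ Y : Fin r → Fin 2 → ℂ,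
    MvPolynomial.eval (fun ij : Fin r × Fin 2 => Y ij.1 ij.2) Φ ≠ 0 →
      ∀ d : ℕ, IsAH Y m d ∧ Equivalence Y m d ∧
        (part (fat Y m) d ≠ ⊥ → ∀ F, IsExceptional Y F → ∃ G ∈ part (fat Y m) d, ¬ F ∣ G)

open Classical in
/-- The bound for the proportion of the exceptions for `r` points. -/
noncomputable def bad (r : ℕ) : ℝ :=
  if 37 ≤ r ∨ r = 13 ∨ r = 21 ∨ IsSquare r then 0
  else if r = 11 ∨ r = 15 then (√(r : ℝ) - 3) / 6
  else (min (√(r : ℝ) - 3) (2 / 3 + 9 / (4 * √(r : ℝ))) +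
    min (√(r : ℝ) - 3) (2 / 3 + 1 / (4 * √(r : ℝ)))) / 2

lemma settled_of {r m : ℕ} (hr : 10 ≤ r) (h : Pool.Agent.N141.SG.Ex r m) : Settled r m :=
  Pool.Agent.Results.MP_8707bd_ag.EquivalenceRandomMultiplicities.settled_of hr h

lemma bad_eq (r : ℕ) : bad r = Pool.Agent.N141.SG.badU r := by
  unfold bad Pool.Agent.N141.SG.badU
  rfl

/-- counting the members with a property -/
lemma count_eq {M : ℕ} (hM : 0 < M) (x : ℕ → ℕ) (P : ℕ → Prop) :
    ({i : ℕ | M < i ∧ i ≤ 2 * M ∧ P (x i)}.ncard : ℝ) =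
      M * meas (law (Finset.Ioc M (2 * M)) (fun _ => 1 / (M : ℝ)) x) P := by
  classical
  rw [Pool.Agent.W2helper30.FP.meas_law, ← Finset.sum_filter, Finset.sum_const, nsmul_eq_mul]
  have e : {i : ℕ | M < i ∧ i ≤ 2 * M ∧ P (x i)} =
      (((Finset.Ioc M (2 * M)).filter (fun i => P (x i)) : Finset ℕ) : Set ℕ) := by
    ext i
    simp [and_assoc]
  rw [e, Set.ncard_coe_finset]
  have hM' : (M : ℝ) ≠ 0 := by exact_mod_cast hM.ne'
  field_simp

/-- **The equivalence of Q1 along very sparse families of multiplicities.**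

For every `k` and `δ > 0` there is a step `h ≥ 1` with the following property. Let `f` be real analytic at `x₀`, and let `K` be
the order of `f - f x₀` at `x₀`; let `δ₀ > 0`, `0 < ε₀ < 1 / 2` and `κ ≠ 0` be fixed. For all large `M`, all real `U` with
`M ^ (K + δ₀) ≤ U ≤ exp ((log M) ^ (3 / 2 - ε₀))` and all integers `c₀` such that the integers
`m_i = c₀ + κ ⌊U f(x₀ + 1 / i)⌋`, `M < i ≤ 2 M`, are not negative:

(1) for every number `r ≥ 10` of points: for all but at most `(bad r + δ) M` of the `i`, all the multiplicities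
`m_i, m_i + h, …, m_i + k h` are settled, that is, the equivalence of Q1 holds for a general set `Y` of `r` points in EVERY degree
`d`, and `m Y` is `AH₂(d)`; here `bad r < 1`, and `bad r = 0` for `r ≥ 37`, `r = 13`, `r = 21` and the squares;

(2) for at least `10 ^ (-65) M` of the `i`, all the multiplicities `m_i, m_i + h, …, m_i + k h` are settled for EVERY number
`r ≥ 10` of points at once.

Every function `f` which is real analytic at `x₀` and not constant near `x₀` qualifies, with a suitable `K`; for example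
`f x = x`, `x₀ = 0`: the multiplicities `c₀ + κ ⌊U / i⌋`. -/
theorem result :
    (∀ (k : ℕ) (δ : ℝ), 0 < δ → ∃ h : ℕ, 1 ≤ h ∧
      ∀ (f : ℝ → ℝ) (x₀ : ℝ) (K : ℕ), OrderAt f x₀ K → ∀ δ₀ ε₀ : ℝ, 0 < δ₀ → 0 < ε₀ → ε₀ < 1 / 2 →
      ∀ (κ : ℤ), κ ≠ 0 → ∃ M₀ : ℕ, ∀ M : ℕ, M₀ ≤ M → ∀ U : ℝ, InRange K δ₀ ε₀ M U →
      ∀ c₀ : ℤ, (∀ i : ℕ, M < i → i ≤ 2 * M → 0 ≤ member f x₀ U c₀ κ i) →
        (∀ r : ℕ, 10 ≤ r →
          ({i : ℕ | M < i ∧ i ≤ 2 * M ∧
            ∃ j ≤ k, ¬ Settled r ((member f x₀ U c₀ κ i).toNat + j * h)}.ncard : ℝ) ≤ (bad r + δ) * M) ∧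
        (M : ℝ) / 10 ^ 65 ≤
          ({i : ℕ | M < i ∧ i ≤ 2 * M ∧ 1 ≤ (member f x₀ U c₀ κ i).toNat ∧
            ∀ j ≤ k, ∀ r : ℕ, 10 ≤ r → Settled r ((member f x₀ U c₀ κ i).toNat + j * h)}.ncard : ℝ)) ∧
    (∀ r : ℕ, 10 ≤ r → bad r < 1) ∧
    (bad 10 < 0.163 ∧ bad 11 < 0.053 ∧ bad 12 < 0.465 ∧ bad 14 < 0.738 ∧ bad 15 < 0.146) ∧
    (∀ (f : ℝ → ℝ) (x₀ : ℝ), AnalyticAt ℝ f x₀ → (¬ ∀ᶠ x in nhds x₀, f x = f x₀) → ∃ K : ℕ, OrderAt f x₀ K) ∧
    (∀ (f : ℝ → ℝ) (x₀ : ℝ), AnalyticAt ℝ f x₀ → deriv f x₀ ≠ 0 → OrderAt f x₀ 1) := by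
  refine ⟨fun k δ hδ => ?_, fun r hr => ?_, ?_, fun f x₀ h1 h2 => Pool.Agent.W2helper30.AN.ord_exists h1 h2,
    fun f x₀ h1 h2 => Pool.Agent.W2helper30.AN.ord_one h1 h2⟩
  · obtain ⟨h, hh, hA⟩ := Pool.Agent.W2helper30.FP.always_prog k hδ
    refine ⟨h, hh, fun f x₀ K hf δ₀ ε₀ hδ₀ hε₀ hε₀2 κ hκ => ?_⟩
    have hf' : Ord f x₀ K := hf
    obtain ⟨M₀, h1⟩ := Pool.Agent.W2helper30.FP.always_an hA hf' δ₀ ε₀ hδ₀ hε₀ hε₀2 κ hκ
    refine ⟨M₀ + 1, fun M hM U hU c₀ hc₀ => ?_⟩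
    have hM1 : 0 < M := by omega
    have hM0 : (0 : ℝ) ≤ M := Nat.cast_nonneg M
    have h2 := h1 M (by omega) U ⟨hU.1, hU.2⟩ c₀ (fun i hi => by
      rw [Finset.mem_Ioc] at hi
      exact hc₀ i hi.1 hi.2)
    have hnn : ∀ m, 0 ≤ (law (Finset.Ioc M (2 * M)) (fun _ => 1 / (M : ℝ))
        (fun i => (c₀ + κ * vl f x₀ U i).toNat)) m :=
      Pool.Agent.N794.DG.law_nonneg (fun _ _ => by positivity) _
    refine ⟨fun r hr => ?_, ?_⟩
    · have h3 := (meas_mono hnn (P := fun m => ∃ j ≤ k, ¬ Settled r (m + j * h))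
        (R := fun m => ∃ j ≤ k, ¬ Pool.Agent.N141.SG.Ex r (m + j * h)) (fun m hm => by
          obtain ⟨j, hj, hm⟩ := hm
          exact ⟨j, hj, fun h3 => hm (settled_of hr h3)⟩)).trans (h2.1 r hr)
      have h4 := count_eq hM1 (fun i => (member f x₀ U c₀ κ i).toNat) (fun m => ∃ j ≤ k, ¬ Settled r (m + j * h))
      refine (le_of_eq h4).trans ?_
      rw [bad_eq, mul_comm]
      exact mul_le_mul_of_nonneg_right h3 hM0
    · have h3 := h2.2.trans (meas_mono hnn (P := fun m => 1 ≤ m ∧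
          ∀ j ≤ k, Pool.Agent.N141.SG.Tgt ((m + j * h : ℕ) : ℤ))
        (R := fun m => 1 ≤ m ∧ ∀ j ≤ k, ∀ r : ℕ, 10 ≤ r → Settled r (m + j * h)) (fun m hm =>
          ⟨hm.1, fun j hj r hr => settled_of hr
            (Pool.Agent.N141.SG.every (hm.2 j hj) (hm.1.trans (Nat.le_add_right _ _)) hr)⟩))
      have h4 := count_eq hM1 (fun i => (member f x₀ U c₀ κ i).toNat)
        (fun m => 1 ≤ m ∧ ∀ j ≤ k, ∀ r : ℕ, 10 ≤ r → Settled r (m + j * h))
      refine le_trans ?_ (le_of_eq h4.symm)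
      rw [div_eq_mul_one_div]
      exact mul_le_mul_of_nonneg_left h3 hM0
  · rw [bad_eq]
    exact Pool.Agent.N141.SG.badU_lt hr
  · simp only [bad_eq]
    exact Pool.Agent.N141.SG.badU_vals

end Pool.Agent.Results.MP_8707bd_ag.AnalyticSparseMultiplicities
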