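import Mathlib
import Pool.Agent.W3helper43.Den

set_option autoImplicit false

/-!
# The equivalence of Q1 for 11 and for 15 points: all degrees, for a set of multiplicities of density one

Let `r = 11` or `r = 15`. For all multiplicities `m` outside a set of natural density zero and a general set
`Y` of `r` points of the complex projective plane (one nonempty open set for all degrees) the scheme `m Y`
is `AH₂(d)`, the equivalence of Q1 holds, and no form exceptional for `Y` divides all elements of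
`[I_Y ^ (m)]_d ≠ 0`, in EVERY degree `d`.

More precisely, let `η > 0`. There is an `m₀` such that for every `m ≥ m₀` this holds for every degree `d`
that is not divisible by three or does not satisfy
`(√r - 3) / 2 - η ≤ d - √r m < (√r - 3) / 2`.
So the length of the interval in which a degree may be open tends to zero as `m` tends to infinity.
-/

namespace Pool.Agent.Results.MP_8707bd_ag.ElevenFifteenDensityOne

open MvPolynomial Pool.Agent.TH387.EX

/-- For a general set `Y` of `r` points, in the degrees `d` with `S d` the scheme `m Y` is `AH₂(d)` and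
the equivalence of Q1 holds, and in every degree no exceptional form divides all elements of a nonzero
`[I_Y ^ (m)]_d`. -/
def Holds (r m : ℕ) (S : ℕ → Prop) : Prop :=
  ∃ Φ : MvPolynomial (Fin r × Fin 2) ℂ, Φ ≠ 0 ∧ ∀ Y : Fin r → Fin 2 → ℂ,
    MvPolynomial.eval (fun ij : Fin r × Fin 2 => Y ij.1 ij.2) Φ ≠ 0 → ∀ d : ℕ,
      (S d → IsAH Y m d ∧ Equivalence Y m d) ∧
        (part (fat Y m) d ≠ ⊥ → ∀ F, IsExceptional Y F → ∃ G ∈ part (fat Y m) d, ¬ F ∣ G)

theorem result (r : ℕ) (hr : r = 11 ∨ r = 15) :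
    (∀ ε : ℝ, 0 < ε → ∃ N₀ : ℝ, ∀ N : ℕ, N₀ ≤ N →
      (Set.ncard {m : ℕ | m < N ∧ ¬ Holds r m fun _ => True} : ℝ) ≤ ε * N) ∧
    ∀ η : ℝ, 0 < η → ∃ m₀ : ℕ, ∀ m : ℕ, m₀ ≤ m →
      Holds r m fun d => ¬ (3 ∣ d ∧ (√(r : ℝ) - 3) / 2 - η ≤ (d : ℝ) - √(r : ℝ) * m ∧
        (d : ℝ) - √(r : ℝ) * m < (√(r : ℝ) - 3) / 2) := by
  have h2 : ∀ η : ℝ, 0 < η → ∃ m₀ : ℕ, ∀ m : ℕ, m₀ ≤ m →
      Holds r m fun d => ¬ (3 ∣ d ∧ (√(r : ℝ) - 3) / 2 - η ≤ (d : ℝ) - √(r : ℝ) * m ∧
        (d : ℝ) - √(r : ℝ) * m < (√(r : ℝ) - 3) / 2) := fun η hη => W3helper43.large_core r hr hη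
  refine ⟨fun ε hε => W3helper43.density hr (fun η hη => ?_) hε, h2⟩
  obtain ⟨m₀, hm₀⟩ := h2 η hη
  refine ⟨m₀, fun m hm hA => ?_⟩
  by_contra hcon
  push Not at hcon
  refine hA ?_
  obtain ⟨Φ, hΦ, hΦ'⟩ := hm₀ m hm
  refine ⟨Φ, hΦ, fun Y hY d => ?_⟩
  obtain ⟨h3, h4⟩ := hΦ' Y hY d
  refine ⟨fun _ => h3 ?_, h4⟩
  rintro ⟨_, h5, h6⟩
  exact absurd h6 (not_lt.2 (hcon d h5))

end Pool.Agent.Results.MP_8707bd_ag.ElevenFifteenDensityOne
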